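import Pool.Agent.Q35.ZC.Stm

/-!
# Project ZC (helper35), job SPL: a hyperplane on which `f` is a square
-/

set_option autoImplicit false

namespace Pool.Agent.Q181.ZC

open Polynomial Pool.Agent.Q35.ZC

/-- the value at `t` of a polynomial in polynomials -/
theorem eval_aeval {F : Type} [Field F] {n : ℕ} (cc : Fin n → F[X]) (h : MvPolynomial (Fin n) F)
    (t : F) : (MvPolynomial.aeval cc h).eval t = MvPolynomial.eval (fun k => (cc k).eval t) h := by
  induction h using MvPolynomial.induction_on with
  | C a => simp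
  | add p q hp hq => simp [hp, hq]
  | mul_X p k hp => simp [hp]

/-- the two points are joined by a line on which `f` is a square -/
theorem line_mem {F : Type} [Field F] [CharZero F] {n : ℕ} (f g : MvPolynomial (Fin n) F) (j : Fin n)
    (c : F) (hfg : ∀ y : Fin n → F, y j = c → MvPolynomial.eval y f = MvPolynomial.eval y g ^ 2)
    (x y : Fin n → F) (hx : x j = c) (hy : y j = c) (hg : MvPolynomial.eval y g = 0) (s : F)
    (hs : s = MvPolynomial.eval x g ∨ s = -MvPolynomial.eval x g) : pt x s - pt y 0 ∈ Rat f := by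
  apply AddSubgroup.subset_closure
  refine Or.inl (Or.inr ?_)
  set cc : Fin n → F[X] := fun k => C (x k) + C (y k - x k) * X with hcc
  have h0 : (fun k => (cc k).eval 0) = x := by
    funext k
    simp [hcc]
  have h1 : (fun k => (cc k).eval 1) = y := by
    funext k
    simp [hcc]
  have hsq : (MvPolynomial.aeval cc g) ^ 2 = MvPolynomial.aeval cc f := by
    apply Polynomial.funext
    intro t
    rw [eval_pow, eval_aeval, eval_aeval]
    refine (hfg _ ?_).symm
    simp [hcc, hx, hy]
  rcases hs with hs | hs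
  · refine ⟨cc, MvPolynomial.aeval cc g, hsq, ?_⟩
    rw [eval_aeval, eval_aeval, h0, h1, hg, hs]
  · refine ⟨cc, -MvPolynomial.aeval cc g, ?_, ?_⟩
    · rw [neg_pow_two, hsq]
    · rw [eval_neg, eval_neg, eval_aeval, eval_aeval, h0, h1, hg, hs, neg_zero]

theorem spl : S_SPL := by
  intro F _ _ n f g j c hfg hex x w hx hw
  obtain ⟨y, hy, hg⟩ := hex
  have hsq : w ^ 2 = MvPolynomial.eval x g ^ 2 := by rw [hw, hfg x hx]
  have h1 : w = MvPolynomial.eval x g ∨ w = -MvPolynomial.eval x g := sq_eq_sq_iff_eq_or_eq_neg.1 hsq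
  have h2 : -w = MvPolynomial.eval x g ∨ -w = -MvPolynomial.eval x g := by
    rcases h1 with h | h
    · exact Or.inr (by rw [h])
    · exact Or.inl (by rw [h, neg_neg])
  have h3 := line_mem f g j c hfg x y hx hy hg w h1
  have h4 := line_mem f g j c hfg x y hx hy hg (-w) h2
  have h5 : dl x w = (pt x w - pt y 0) - (pt x (-w) - pt y 0) := by
    unfold dl
    abel
  rw [h5]
  exact AddSubgroup.sub_mem _ h3 h4

end Pool.Agent.Q181.ZC
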